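import Pool.Agent.Lib_helper53.MET.Defs2
import Pool.Agent.Lib_helper81.MET.R3m

set_option autoImplicit false

/-! Block R4m of project MET (MP_760942_al): the model of the module of a module. -/

namespace Pool.Agent.MET

/-- the action on the model -/
noncomputable def r4m_act (k b : ℕ) (R : List Rel) (w : Fin (k + 2) → ℤ) :
    PM k b R × L k × L k →+ PM k b R × L k × L k :=
  AddMonoidHom.mk' (fun n => ((xp fun i => w i.succ.succ : L k) • n.1,
      (xp fun i => w i.succ.succ : L k) * n.2.1,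
      (xp fun i => w i.succ.succ : L k) * (n.2.2 + w 0 • n.2.1 + w 1 • (FF k * n.2.1))))
      fun n n' => by
    refine Prod.ext ?_ (Prod.ext ?_ ?_)
    · simp
    · simp [mul_add]
    · simp only [Prod.fst_add, Prod.snd_add, mul_add, smul_add]
      abel

theorem r4m_act_zero (k b : ℕ) (R : List Rel) (x : PM k b R × L k × L k) :
    r4m_act k b R 0 x = x := by
  refine Prod.ext ?_ (Prod.ext ?_ ?_)
  · change (xp (0 : Fin k → ℤ) : L k) • x.1 = x.1
    rw [xp_zero, one_smul]
  · change (xp (0 : Fin k → ℤ) : L k) * x.2.1 = x.2.1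
    rw [xp_zero, one_mul]
  · change (xp (0 : Fin k → ℤ) : L k) * (x.2.2 + (0 : ℤ) • x.2.1 + (0 : ℤ) • (FF k * x.2.1)) = x.2.2
    rw [xp_zero, one_mul, zero_smul, zero_smul, add_zero, add_zero]

theorem r4m_act_add (k b : ℕ) (R : List Rel) (v w : Fin (k + 2) → ℤ)
    (x : PM k b R × L k × L k) :
    r4m_act k b R (v + w) x = r4m_act k b R v (r4m_act k b R w x) := by
  have hx : (xp fun i : Fin k => (v + w) i.succ.succ : L k) =
      (xp fun i => v i.succ.succ) * xp fun i => w i.succ.succ := by
    rw [← xp_add]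
    rfl
  refine Prod.ext ?_ (Prod.ext ?_ ?_)
  · change (xp fun i : Fin k => (v + w) i.succ.succ : L k) • x.1 =
      (xp fun i => v i.succ.succ : L k) • ((xp fun i => w i.succ.succ : L k) • x.1)
    rw [hx, mul_smul]
  · change (xp fun i : Fin k => (v + w) i.succ.succ : L k) * x.2.1 =
      (xp fun i => v i.succ.succ : L k) * ((xp fun i => w i.succ.succ : L k) * x.2.1)
    rw [hx, mul_assoc]
  · change (xp fun i : Fin k => (v + w) i.succ.succ : L k) *
        (x.2.2 + (v + w) 0 • x.2.1 + (v + w) 1 • (FF k * x.2.1)) =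
      (xp fun i => v i.succ.succ : L k) * ((xp fun i => w i.succ.succ : L k) *
        (x.2.2 + w 0 • x.2.1 + w 1 • (FF k * x.2.1)) +
        v 0 • ((xp fun i => w i.succ.succ : L k) * x.2.1) +
        v 1 • (FF k * ((xp fun i => w i.succ.succ : L k) * x.2.1)))
    rw [hx, Pi.add_apply, Pi.add_apply]
    simp only [zsmul_eq_mul, Int.cast_add]
    ring

/-- the generators of the model -/
noncomputable def r4m_be (k b : ℕ) (R : List Rel) (i : ℕ) : PM k b R × L k × L k :=
  match i with
  | 0 => (0, 1, 0)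
  | 1 => (0, 0, 1)
  | (j + 2) => (gen j, 0, 0)

theorem r4m_act_S (k b : ℕ) (R : List Rel) (s t : ℤ) (v : Fin k → ℤ) (x : L k) :
    r4m_act k b R (fr s t v) (0, 0, x) = (0, 0, xp v * x) := by
  refine Prod.ext ?_ (Prod.ext ?_ ?_)
  · change (xp v : L k) • (0 : PM k b R) = 0
    rw [smul_zero]
  · change (xp v : L k) * 0 = 0
    rw [mul_zero]
  · change (xp v : L k) * (x + s • (0 : L k) + t • (FF k * 0)) = xp v * x
    rw [mul_zero, smul_zero, smul_zero, add_zero, add_zero]

theorem r4m_act_P (k b : ℕ) (R : List Rel) (s t : ℤ) (v : Fin k → ℤ) (x : L k) :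
    r4m_act k b R (fr s t v) (0, x, 0) = (0, xp v * x, xp v * (s • x + t • (FF k * x))) := by
  refine Prod.ext ?_ (Prod.ext rfl ?_)
  · change (xp v : L k) • (0 : PM k b R) = 0
    rw [smul_zero]
  · change (xp v : L k) * (0 + s • x + t • (FF k * x)) = xp v * (s • x + t • (FF k * x))
    rw [zero_add]

theorem r4m_act_M (k b : ℕ) (R : List Rel) (s t : ℤ) (v : Fin k → ℤ) (m : PM k b R) :
    r4m_act k b R (fr s t v) (m, 0, 0) = ((xp v : L k) • m, 0, 0) := by
  refine Prod.ext rfl (Prod.ext ?_ ?_)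
  · change (xp v : L k) * 0 = 0
    rw [mul_zero]
  · change (xp v : L k) * (0 + s • (0 : L k) + t • (FF k * 0)) = 0
    rw [mul_zero, smul_zero, smul_zero, add_zero, add_zero, mul_zero]

/-- the terms of the last relation -/
theorem r4m_flat {V : Type*} [AddCommGroup V] (k : ℕ) (T : Term → V) (t : ℕ → Term) :
    (((List.range k).flatMap fun j => List.replicate (j + 1) (t j)).map T).sum =
      ∑ j : Fin k, ((j : ℕ) + 1) • T (t j) := by
  induction k with
  | zero => simp
  | succ n ih =>
    rw [List.range_succ, List.flatMap_append, List.map_append, List.sum_append, ih,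
      Fin.sum_univ_castSucc]
    simp

theorem r4m_mon (k : ℕ) (j : Fin k) :
    mon (k + 2) [((j : ℕ) + 2, true)] = fr 0 0 (Pi.single j 1) := by
  have h := r3m_sh k [((j : ℕ), true)]
  rw [mon_single k j j.2] at h
  exact h

/-- evaluation of the shifted relations -/
theorem r4m_ev (k b : ℕ) (R : List Rel) (r : Rel) :
    ev (r4m_act k b R) (b + 2) (r4m_be k b R) (shr 2 2 r) =
      ((r.map (fun t => sg t.2.1 • ((xp (mon k t.2.2) : L k) • (gen t.1 : PM k b R)))).sum, 0, 0) := by
  induction r with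
  | nil => rfl
  | cons t r ih =>
    have h1 : ev (r4m_act k b R) (b + 2) (r4m_be k b R) (shr 2 2 (t :: r)) =
        (if t.1 + 2 < b + 2 then sg t.2.1 • r4m_act k b R (mon (k + 2) (sh 2 t.2.2))
          (r4m_be k b R (t.1 + 2)) else 0) +
        ev (r4m_act k b R) (b + 2) (r4m_be k b R) (shr 2 2 r) := rfl
    rw [h1, ih, List.map_cons, List.sum_cons, r3m_sh]
    have h2 : (if t.1 + 2 < b + 2 then sg t.2.1 • r4m_act k b R (fr 0 0 (mon k t.2.2))
          (r4m_be k b R (t.1 + 2)) else 0) =
        (sg t.2.1 • ((xp (mon k t.2.2) : L k) • (gen t.1 : PM k b R)), 0, 0) := by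
      by_cases h : t.1 < b
      · rw [if_pos (by omega)]
        change sg t.2.1 • r4m_act k b R (fr 0 0 (mon k t.2.2)) (gen t.1, 0, 0) = _
        rw [r4m_act_M]
        simp
      · rw [if_neg (by omega), gen_of_le (by omega), smul_zero, smul_zero]
        rfl
    rw [h2]
    simp

/-- the relations hold in the model -/
theorem r4m_rel (k b : ℕ) (R : List Rel) (r : Rel) (hr : r ∈ (linFr k b R).2.2) :
    ev (r4m_act k b R) (b + 2) (r4m_be k b R) r = 0 := by
  have h0 := r4m_act_zero k b R
  have hb0 : r4m_be k b R 0 = (0, 1, 0) := rfl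
  have hb1 : r4m_be k b R 1 = (0, 0, 1) := rfl
  have hb2 : ∀ i, r4m_be k b R (i + 2) = (gen i, 0, 0) := fun i => rfl
  simp only [linFr, List.mem_append, List.mem_map, List.mem_range, List.mem_cons,
    List.not_mem_nil, or_false] at hr
  rcases hr with ((⟨r, hr, rfl⟩ | ⟨i, hi, rfl⟩) | ⟨i, hi, rfl⟩) | rfl | rfl | rfl | rfl
  · rw [r4m_ev, pm_rel r hr]
    rfl
  · rw [ev_eqn _ _ h0 _ _ _ (by omega), r3m_mon0, hb2, r4m_act_M, xp_zero, one_smul, one_smul,
      sub_self]
  · rw [ev_eqn _ _ h0 _ _ _ (by omega), r3m_mon1, hb2, r4m_act_M, xp_zero, one_smul, one_smul,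
      sub_self]
  · have h1 : 0 < b + 2 := by omega
    have h2 : 1 < b + 2 := by omega
    simp only [ev, List.map_cons, List.map_nil, List.sum_cons, List.sum_nil, if_pos h1, if_pos h2,
      mon_nil, h0, r3m_mon0, hb0, hb1, r4m_act_P, xp_zero, one_mul]
    refine Prod.ext ?_ (Prod.ext ?_ ?_) <;> simp [sg]
  · rw [ev_eqn _ _ h0 _ _ _ (by omega), r3m_mon0, hb1, r4m_act_S, xp_zero, one_mul, one_smul,
      sub_self]
  · rw [ev_eqn _ _ h0 _ _ _ (by omega), r3m_mon1, hb1, r4m_act_S, xp_zero, one_mul, one_smul,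
      sub_self]
  · have h1 : 0 < b + 2 := by omega
    have h2 : 1 < b + 2 := by omega
    unfold ev
    rw [List.map_append, List.sum_append, r4m_flat]
    simp only [List.map_cons, List.map_nil, List.sum_cons, List.sum_nil, if_pos h1, if_pos h2,
      mon_nil, h0, r3m_mon1, hb0, hb1, r4m_act_P, xp_zero, one_mul, r4m_mon, r4m_act_S]
    refine Prod.ext ?_ (Prod.ext ?_ ?_)
    · simp [sg, Prod.fst_sum]
    · simp [sg, Prod.fst_sum, Prod.snd_sum]
    · simp only [Prod.snd_add, Prod.snd_sum, Prod.smul_snd, Prod.snd_zero, sg, FF]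
      simp

/-- R4m -/
theorem linFr_model (k b : ℕ) (R : List Rel) :
    ∃ Φ : PM (k + 2) (b + 2) (linFr k b R).2.2 ≃+ PM k b R × L k × L k,
      ∀ (s t : ℤ) (v : Fin k → ℤ) (n : PM (k + 2) (b + 2) (linFr k b R).2.2), Φ (xp (fr s t v) • n) =
        ((xp v : L k) • (Φ n).1, xp v * (Φ n).2.1,
         xp v * ((Φ n).2.2 + s • (Φ n).2.1 + t • (FF k * (Φ n).2.1))) := by
  classical
  set R' := (linFr k b R).2.2 with hR'def
  obtain ⟨f, hf1, hf2⟩ := up (k := k + 2) (b := b + 2) (R := R') (r4m_act k b R)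
    (r4m_act_zero k b R) (r4m_act_add k b R) (r4m_be k b R) (r4m_rel k b R)
  let inst : Module (L k) (PM (k + 2) (b + 2) R') := Module.compHom _ (r3m_io k)
  have hs : ∀ (a : L k) (n : PM (k + 2) (b + 2) R'), a • n = r3m_io k a • n := fun a n => rfl
  have hsx : ∀ (v : Fin k → ℤ) (n : PM (k + 2) (b + 2) R'),
      (xp v : L k) • n = (xp (fr 0 0 v) : L (k + 2)) • n := fun v n => by rw [hs, r3m_io_xp]
  have hcomm : ∀ (a : L k) (c : L (k + 2)) (n : PM (k + 2) (b + 2) R'),
      c • (a • n) = a • (c • n) := fun a c n => by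
    rw [hs, hs, smul_smul, smul_smul, mul_comm c (r3m_io k a)]
  let p : PM (k + 2) (b + 2) R' := gen 0
  let s : PM (k + 2) (b + 2) R' := gen 1
  -- membership of the relations
  have mem0 : ∀ r ∈ R, shr 2 2 r ∈ R' := by
    intro r hr
    rw [hR'def]
    simp only [linFr, List.mem_append, List.mem_map, List.mem_range]
    exact Or.inl (Or.inl (Or.inl ⟨r, hr, rfl⟩))
  have mem1 : ∀ i < b, eqn 0 (i + 2) 1 ∈ R' := by
    intro i hi
    rw [hR'def]
    simp only [linFr, List.mem_append, List.mem_map, List.mem_range]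
    exact Or.inl (Or.inl (Or.inr ⟨i, hi, rfl⟩))
  have mem2 : ∀ i < b, eqn 1 (i + 2) 1 ∈ R' := by
    intro i hi
    rw [hR'def]
    simp only [linFr, List.mem_append, List.mem_map, List.mem_range]
    exact Or.inl (Or.inr ⟨i, hi, rfl⟩)
  have y1P : (xp (fr 1 0 0) : L (k + 2)) • p = p + s := by
    have h1 : [((0, true, [(0, true)]) : Term), (0, false, []), (1, false, [])] ∈ R' := by
      rw [hR'def]
      simp [linFr]
    have h2 := pm_rel (k := k + 2) (b := b + 2) _ h1
    simp only [List.map_cons, List.map_nil, List.sum_cons, List.sum_nil, r3m_mon0, mon_nil,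
      xp_zero, one_smul, sg, if_true, Bool.false_eq_true, if_false, neg_smul, add_zero] at h2
    rw [← sub_eq_zero, ← h2]
    simp only [p, s]
    abel
  have y1S : (xp (fr 1 0 0) : L (k + 2)) • s = s := by
    have h1 : eqn 0 1 1 ∈ R' := by
      rw [hR'def]
      simp [linFr]
    have h2 := pm_eqn (k := k + 2) (b := b + 2) 0 1 1 h1
    rw [r3m_mon0, one_smul] at h2
    exact h2
  have y2S : (xp (fr 0 1 0) : L (k + 2)) • s = s := by
    have h1 : eqn 1 1 1 ∈ R' := by
      rw [hR'def]
      simp [linFr]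
    have h2 := pm_eqn (k := k + 2) (b := b + 2) 1 1 1 h1
    rw [r3m_mon1, one_smul] at h2
    exact h2
  have y2P : (xp (fr 0 1 0) : L (k + 2)) • p = p + FF k • s := by
    have h1 : ([((0, true, [(1, true)]) : Term), (0, false, [])] ++
        (List.range k).flatMap fun j => List.replicate (j + 1) ((1, false, [(j + 2, true)]) : Term))
          ∈ R' := by
      rw [hR'def]
      simp [linFr]
    have h2 := pm_rel (k := k + 2) (b := b + 2) _ h1
    rw [List.map_append, List.sum_append, r4m_flat] at h2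
    simp only [List.map_cons, List.map_nil, List.sum_cons, List.sum_nil, r3m_mon1, mon_nil,
      xp_zero, one_smul, sg, if_true, Bool.false_eq_true, if_false, neg_smul, add_zero, r4m_mon] at h2
    have h3 : FF k • s = ∑ j : Fin k, ((j : ℕ) + 1) • ((xp (fr 0 0 (Pi.single j 1)) : L (k + 2)) • s) := by
      rw [FF, Finset.sum_smul]
      refine Finset.sum_congr rfl fun j _ => ?_
      rw [smul_assoc, hsx]
    rw [h3, ← sub_eq_zero, ← h2]
    simp only [p, s, smul_neg, Finset.sum_neg_distrib]
    abel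
  have y1C : ∀ (u : Fin (k + 2) → ℤ) (h : (xp u : L (k + 2)) • s = s) (x : L k),
      (xp u : L (k + 2)) • (x • s) = x • s := by
    intro u h x
    rw [hcomm, h]
  -- the module
  obtain ⟨ι, hι1, hι2⟩ := up (k := k) (b := b) (R := R) (B := PM (k + 2) (b + 2) R')
    (fun v => DistribMulAction.toAddMonoidHom _ (xp (fr 0 0 v) : L (k + 2)))
    (fun x => by
      change (xp (fr 0 0 0) : L (k + 2)) • x = x
      rw [r3m_zero, xp_zero, one_smul])
    (fun v w x => by
      change (xp (fr 0 0 (v + w)) : L (k + 2)) • x =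
        (xp (fr 0 0 v) : L (k + 2)) • ((xp (fr 0 0 w) : L (k + 2)) • x)
      rw [smul_smul, ← xp_add, ← r3m_add]
      simp)
    (fun i => gen (i + 2)) (by
      intro r hr
      have h := pm_rel (k := k + 2) (b := b + 2) _ (mem0 r hr)
      have h2 : ∀ r : Rel, ((shr 2 2 r).map (fun t => sg t.2.1 • ((xp (mon (k + 2) t.2.2) : L (k + 2)) •
          (gen t.1 : PM (k + 2) (b + 2) R')))).sum =
          ev (fun v => DistribMulAction.toAddMonoidHom _ (xp (fr 0 0 v) : L (k + 2))) b
            (fun i => (gen (i + 2) : PM (k + 2) (b + 2) R')) r := by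
        intro r
        simp only [shr, ev, List.map_map]
        congr 1
        apply List.map_congr_left
        intro t _
        simp only [Function.comp, r3m_sh]
        by_cases ht : t.1 < b
        · rw [if_pos ht]
          rfl
        · rw [if_neg ht, gen_of_le (by omega), smul_zero, smul_zero]
      rw [← h2]
      exact h)
  have hι2' : ∀ (v : Fin k → ℤ) (m : PM k b R), ι ((xp v : L k) • m) =
      (xp (fr 0 0 v) : L (k + 2)) • ι m := fun v m => hι2 v m
  -- the frame acts trivially on the image of `ι`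
  have hιfix : ∀ (u : Fin (k + 2) → ℤ)
      (h : ∀ i < b, (xp u : L (k + 2)) • (gen (i + 2) : PM (k + 2) (b + 2) R') = gen (i + 2))
      (m : PM k b R), (xp u : L (k + 2)) • ι m = ι m := by
    intro u h m
    refine pm_induction (motive := fun m => (xp u : L (k + 2)) • ι m = ι m) m ?_ ?_ ?_ ?_
    · rw [map_zero, smul_zero]
    · intro a c ha hc
      rw [map_add, smul_add, ha, hc]
    · intro a ha
      rw [map_neg, smul_neg, ha]
    · intro v i hi
      rw [hι2', hι1 i hi, ← hsx, hcomm, h i hi]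
  have y1M : ∀ m : PM k b R, (xp (fr 1 0 0) : L (k + 2)) • ι m = ι m := by
    refine hιfix _ ?_
    intro i hi
    have h2 := pm_eqn (k := k + 2) (b := b + 2) 0 (i + 2) 1 (mem1 i hi)
    rw [r3m_mon0, one_smul] at h2
    exact h2
  have y2M : ∀ m : PM k b R, (xp (fr 0 1 0) : L (k + 2)) • ι m = ι m := by
    refine hιfix _ ?_
    intro i hi
    have h2 := pm_eqn (k := k + 2) (b := b + 2) 1 (i + 2) 1 (mem2 i hi)
    rw [r3m_mon1, one_smul] at h2
    exact h2
  have hsplit : ∀ (a c : ℤ) (v : Fin k → ℤ),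
      fr a c v = fr 0 0 v + (a • fr 1 0 (0 : Fin k → ℤ) + c • fr 0 1 (0 : Fin k → ℤ)) := by
    intro a c v
    rw [r3m_smul, r3m_smul, ← r3m_add, ← r3m_add]
    simp
  have keyM : ∀ (a c : ℤ) (v : Fin k → ℤ) (m : PM k b R),
      (xp (fr a c v) : L (k + 2)) • ι m = ι ((xp v : L k) • m) := by
    intro a c v m
    rw [hsplit, xp_add, mul_smul, xp_add, mul_smul, r3m_fix _ _ (y2M m), r3m_fix _ _ (y1M m), hι2']
  have keyS : ∀ (a c : ℤ) (v : Fin k → ℤ) (x : L k),
      (xp (fr a c v) : L (k + 2)) • (x • s) = ((xp v : L k) * x) • s := by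
    intro a c v x
    rw [hsplit, xp_add, mul_smul, xp_add, mul_smul, r3m_fix _ _ (y1C _ y2S x),
      r3m_fix _ _ (y1C _ y1S x), ← hsx, mul_smul]
  have keyP : ∀ (a c : ℤ) (v : Fin k → ℤ) (x : L k),
      (xp (fr a c v) : L (k + 2)) • (x • p) =
        ((xp v : L k) * x) • p + ((xp v : L k) * (a • x + c • (FF k * x))) • s := by
    intro a c v x
    rw [hcomm, hsplit, xp_add, mul_smul, xp_add, mul_smul, r3m_unip _ _ _ y2P (y1C _ y2S _),
      smul_add, r3m_unip _ _ _ y1P y1S, ← smul_assoc c (FF k) s, r3m_fix _ _ (y1C _ y1S _), ← hsx]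
    have hz : ∀ (n : ℤ) (y : PM (k + 2) (b + 2) R'), n • y = ((n : L k)) • y := fun n y =>
      (Int.cast_smul_eq_zsmul (L k) n y).symm
    rw [hz a s]
    simp only [smul_add, smul_smul, zsmul_eq_mul]
    rw [add_assoc, ← add_smul]
    congr 2 <;> ring
  let g : PM k b R × L k × L k →+ PM (k + 2) (b + 2) R' :=
    AddMonoidHom.mk' (fun x => ι x.1 + (x.2.1 • p + x.2.2 • s)) fun x y => by
      simp only [Prod.fst_add, Prod.snd_add, map_add, add_smul]
      abel
  have hg : ∀ x, g x = ι x.1 + (x.2.1 • p + x.2.2 • s) := fun x => rfl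
  have hgact : ∀ (w : Fin (k + 2) → ℤ) x, g (r4m_act k b R w x) = (xp w : L (k + 2)) • g x := by
    intro w x
    have h1 : (xp w : L (k + 2)) • g x = ι ((xp fun i => w i.succ.succ : L k) • x.1) +
        ((((xp fun i => w i.succ.succ : L k) * x.2.1) • p + ((xp fun i => w i.succ.succ : L k) *
          (w 0 • x.2.1 + w 1 • (FF k * x.2.1))) • s) +
          ((xp fun i => w i.succ.succ : L k) * x.2.2) • s) := by
      rw [hg, smul_add, smul_add, ← keyM (w 0) (w 1), ← keyP (w 0) (w 1), ← keyS (w 0) (w 1),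
        r3m_eta w]
    have h2 : g (r4m_act k b R w x) = ι ((xp fun i => w i.succ.succ : L k) • x.1) +
        (((xp fun i => w i.succ.succ : L k) * x.2.1) • p + ((xp fun i => w i.succ.succ : L k) *
          (x.2.2 + w 0 • x.2.1 + w 1 • (FF k * x.2.1))) • s) := rfl
    rw [h1, h2, add_assoc (((xp fun i => w i.succ.succ : L k) * x.2.1) • p), ← add_smul]
    congr 3
    ring
  have hgf : ∀ n, g (f n) = n := by
    intro n
    refine DFunLike.congr_fun (pm_ext (g.comp f) (AddMonoidHom.id _) ?_) n
    intro w i hi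
    change g (f ((xp w : L (k + 2)) • gen i)) = (xp w : L (k + 2)) • gen i
    rw [hf2, hf1 i hi, hgact]
    congr 1
    match i, hi with
    | 0, _ =>
      change ι 0 + ((1 : L k) • p + (0 : L k) • s) = gen 0
      rw [map_zero, zero_add, one_smul, zero_smul, add_zero]
    | 1, _ =>
      change ι 0 + ((0 : L k) • p + (1 : L k) • s) = gen 1
      rw [map_zero, zero_add, one_smul, zero_smul, zero_add]
    | (j + 2), hi =>
      change ι (gen j) + ((0 : L k) • p + (0 : L k) • s) = gen (j + 2)
      rw [hι1 j (by omega), zero_smul, zero_smul, add_zero, add_zero]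
  have hfg : ∀ x, f (g x) = x := by
    have hfp : f p = (0, 1, 0) := hf1 0 (by omega)
    have hfs : f s = (0, 0, 1) := hf1 1 (by omega)
    have hM : ∀ m, f (ι m) = (m, 0, 0) := by
      intro m
      refine pm_induction (motive := fun m => f (ι m) = (m, 0, 0)) m ?_ ?_ ?_ ?_
      · rw [map_zero, map_zero]
        rfl
      · intro a c ha hc
        rw [map_add, map_add, ha, hc]
        simp
      · intro a ha
        rw [map_neg, map_neg, ha]
        simp
      · intro v i hi
        rw [hι2', hf2, hι1 i hi, hf1 (i + 2) (by omega)]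
        exact r4m_act_M k b R 0 0 v (gen i)
    have hP : ∀ x : L k, f (x • p) = (0, x, 0) := by
      intro x
      refine L_induction (motive := fun x => f (x • p) = (0, x, 0)) x ?_ ?_ ?_ ?_
      · rw [zero_smul, map_zero]
        rfl
      · intro a c ha hc
        rw [add_smul, map_add, ha, hc]
        simp
      · intro a ha
        rw [neg_smul, map_neg, ha]
        simp
      · intro v
        rw [hsx, hf2, hfp, r4m_act_P]
        simp
    have hS : ∀ x : L k, f (x • s) = (0, 0, x) := by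
      intro x
      refine L_induction (motive := fun x => f (x • s) = (0, 0, x)) x ?_ ?_ ?_ ?_
      · rw [zero_smul, map_zero]
        rfl
      · intro a c ha hc
        rw [add_smul, map_add, ha, hc]
        simp
      · intro a ha
        rw [neg_smul, map_neg, ha]
        simp
      · intro v
        rw [hsx, hf2, hfs, r4m_act_S]
        simp
    rintro ⟨m, x, y⟩
    rw [hg, map_add, map_add, hM, hP, hS]
    simp
  refine ⟨{ toFun := f, invFun := g, left_inv := hgf, right_inv := hfg, map_add' := map_add f },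
    fun s t v n => ?_⟩
  exact hf2 (fr s t v) n

end Pool.Agent.MET
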